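import Pool.Agent.H10.GM.Targets1

/-!
# LNC: a linkage through `C` gives a linkage in `C`
-/

set_option autoImplicit false

namespace Pool.Agent.H54.GM

open Pool.Agent.H55.GW Pool.Agent.H10.GM

/-- one walk -/
theorem walk_lnc {V : Type} {E : V → V → Prop} (hE : Sy E) {C Y Z S : Set V}
    (hYC : Disjoint Y C) (hZC : Disjoint Z C) (hYZ : Disjoint Y Z) {y z : V} (hy : y ∈ Y)
    (hz : z ∈ Z) (h : RIn (HH E C Y Z) S y z) :
    ∃ c d, (c ∈ C ∧ ∃ a ∈ Y, E c a) ∧ (d ∈ C ∧ ∃ a ∈ Z, E d a) ∧ RIn (rs E C) S c d := by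
  have hzY : z ∉ Y := fun hzY => Set.disjoint_left.1 hYZ hzY hz
  obtain ⟨c, a, h1, hc, h2, ha, -⟩ := h.rev.enter (T := Y) hzY hy
  have haC : a ∉ C := fun haC => Set.disjoint_left.1 hYC ha haC
  have hcC : c ∈ C := by
    rcases h2.2.2.2 with h3 | h3
    · exact absurd h3 haC
    · exact h3
  have hcZ : c ∉ Z := fun hcZ => Set.disjoint_left.1 hZC hcZ hcC
  have h4 : RIn (HH E C Y Z) (S \ Y) c z := h1.rev
  obtain ⟨d, b, h5, -, h6, hb, -⟩ := h4.enter (T := Z) hcZ hz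
  have hbC : b ∉ C := fun hbC => Set.disjoint_left.1 hZC hb hbC
  have hdC : d ∈ C := by
    rcases h6.2.2.2 with h3 | h3
    · exact h3
    · exact absurd h3 hbC
  refine ⟨c, d, ⟨hcC, a, ha, hE _ _ h2.1⟩, ⟨hdC, b, hb, h6.1⟩, ?_⟩
  refine h5.mono (fun u v huv hu hv => ⟨huv.1, ?_, ?_⟩) (fun v hv => hv.1.1)
  · rcases huv.2.1 with (h3 | h3) | h3
    · exact h3
    · exact absurd h3 hu.1.2
    · exact absurd h3 hu.2
  · rcases huv.2.2.1 with (h3 | h3) | h3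
    · exact h3
    · exact absurd h3 hv.1.2
    · exact absurd h3 hv.2

/-- LNC -/
theorem pf_LNC : T_LNC := by
  intro V E hE k C Y Z hYC hZC hYZ hL
  obtain ⟨x, y, S, h1, h2⟩ := hL
  choose c d h3 h4 h5 using fun i => walk_lnc hE hYC hZC hYZ (h1 i).1 (h1 i).2.1 (h1 i).2.2
  exact ⟨c, d, S, fun i => ⟨h3 i, h4 i, h5 i⟩, h2⟩

end Pool.Agent.H54.GM
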