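import Pool.Agent.H53.GM.Targets
import Pool.Agent.H68.GC.POW

/-!
# Forbidden coloured patterns, board `gm2_modules`, row PWG: the map on the sixth power
-/

set_option autoImplicit false

namespace Pool.Agent.H54.GM

open Pool.Agent.H68.BP Pool.Agent.H58.SF Pool.Agent.H53.GC Pool.Agent.H53.RG Pool.Agent.H53.GR
open Pool.Agent.H68.GC (pppower_strOn ols_pat hom_strOn poly_strOn)

section

variable {σ : Sig} {A B Y : Type}

/-- the relation of the homomorphisms from `𝕎` -/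
def relW (𝔸 : Str σ A) (k : ℕ) (𝕎 : Str σ B) (P : (Fin k → B) → Fin k → A) : Prop :=
  ∃ x : B → A, IsHom 𝕎 𝔸 x ∧ ∀ α, P α = fun v => x (α v)

/-- its image -/
def relV (𝔸 : Str σ A) (k : ℕ) (K : (Fin k → A) → Y) (𝕎 : Str σ B) (t : (Fin k → B) → Y) :
    Prop :=
  ∃ x : B → A, IsHom 𝕎 𝔸 x ∧ ∀ α, t α = K fun v => x (α v)

theorem relW_pp [Finite B] (𝔸 : Str σ A) (k : ℕ) (𝕎 : Str σ B) :
    PPDefinable 𝔸 {z : (Fin k → B) × Fin k → A | relW 𝔸 k 𝕎 (fun p i => z (p, i))} := by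
  classical
  let P : Type := (Fin k → B) × Fin k
  let Q : Type := {lz : Σ l : Fin σ.m, (Fin (σ.ar l) → B) // 𝕎 lz.1 lz.2}
  let Φ : Set (Atom σ (P ⊕ B)) :=
    Set.range (fun q : Q => (Atom.rel q.1.1 (fun i => Sum.inr (q.1.2 i)) : Atom σ (P ⊕ B))) ∪
      Set.range (fun p : P => (Atom.eq (Sum.inl p) (Sum.inr (p.1 p.2)) : Atom σ (P ⊕ B)))
  have hΦ : Φ.Finite := (Set.finite_range _).union (Set.finite_range _)
  have h1 := ppDefinable_of_finite (𝔸 := 𝔸) Φ hΦ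
  have h2 : {z : P → A | relW 𝔸 k 𝕎 (fun p i => z (p, i))} =
      {x : P → A | ∃ y : B → A, ∀ a ∈ Φ, a.Holds 𝔸 (Sum.elim x y)} := by
    ext z
    constructor
    · rintro ⟨x, hx1, hx2⟩
      refine ⟨x, ?_⟩
      rintro a (ha | ha)
      · obtain ⟨q, rfl⟩ := ha
        exact hx1 q.1.1 q.1.2 q.2
      · obtain ⟨p, rfl⟩ := ha
        exact congrFun (hx2 p.1) p.2
    · rintro ⟨x, hx⟩
      refine ⟨x, fun l y hy => ?_, fun α => ?_⟩
      · exact hx _ (Or.inl ⟨⟨⟨l, y⟩, hy⟩, rfl⟩)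
      · funext i
        exact hx _ (Or.inr ⟨(α, i), rfl⟩)
  change PPDefinable 𝔸 {z : P → A | relW 𝔸 k 𝕎 (fun p i => z (p, i))}
  rw [h2]
  exact h1

end

theorem pf_PWG : Pool.Agent.H53.GM.T_PWG := by
  classical
  intro σ A 𝔸 hA hne hol hK B _ _ k hk Y _ K
  by_contra hcon
  apply hK
  have hfin : Finite (Str σ B) := by
    unfold Str
    infer_instance
  let ℙ := strOn (relW (B := B) 𝔸 k)
  let 𝕋 := strOn (relV (B := B) 𝔸 k K)
  have hP : PPPower 𝔸 k ℙ := pppower_strOn _ (relW_pp 𝔸 k)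
  have hne' : Nonempty (Fin k → A) := inferInstance
  refine Pool.Agent.H51.SF.pf_TR _ _ A 𝔸 k ℙ hk hP ?_
  refine Pool.Agent.H53.FC.K3_of_no_olsak (𝔸 := ℙ) (𝕋 := 𝕋) inferInstance
    (Pool.Agent.H81.SF.pf_PO _ _ A 𝔸 k ℙ hP hol) ⟨K, ?_⟩ ?_
  · refine (hom_strOn _ _ _).2 ?_
    rintro s P ⟨x, hx1, hx2⟩
    refine ⟨x, hx1, fun α => ?_⟩
    change K (P α) = _
    rw [hx2 α]
  · intro h0 hpoly ho
    apply hcon
    have hp := (poly_strOn _ _ _).1 hpoly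
    refine ⟨h0, fun 𝕎 u hu => ?_, fun r P P' => ols_pat ho r P P'⟩
    obtain ⟨x, hx1, hx2⟩ := hp 𝕎 (fun c α v => u c (α v)) (fun c => ⟨u c, hu c, fun α => rfl⟩)
    exact ⟨x, hx1, fun α => (hx2 α).symm⟩

end Pool.Agent.H54.GM
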